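import Pool.Agent.Q162.WH.Win

set_option autoImplicit false

open Finset

namespace Pool.Agent.Q162.WH

/-- sum of the two windowed blocks -/
noncomputable def Phi (p d : ℕ) (k : ℤ) (x : ℤ) : ℂ := ∑ i : Fin 2, phi p d k i x

/-- the folded function, of period `d` -/
noncomputable def Psi (p d : ℕ) (k : ℤ) (x : ℤ) : ℂ :=
  Phi p d k (x % d) + Phi p d k (x % d - d)

lemma phi_supp (p d : ℕ) (hd : 1 ≤ d) (k : ℤ) (i : Fin 2) (x : ℤ) (h : ¬ (-(d : ℤ) < 2 * x ∧ x < d)) :
    phi p d k i x = 0 := by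
  have : win d i x = 0 := by
    by_contra h0
    apply h
    have := win_supp' d hd i x h0
    fin_cases i
    · have := this.1 rfl; omega
    · have := this.2 rfl; omega
  unfold phi
  rw [this]
  simp

lemma Phi_supp (p d : ℕ) (hd : 1 ≤ d) (k : ℤ) (x : ℤ) (h : ¬ (-(d : ℤ) < 2 * x ∧ x < d)) :
    Phi p d k x = 0 := by
  unfold Phi
  exact Finset.sum_eq_zero fun i _ => phi_supp p d hd k i x h

lemma Psi_add (p d : ℕ) (k : ℤ) (x : ℤ) (n : ℤ) : Psi p d k (x + n * d) = Psi p d k x := by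
  unfold Psi
  rw [Int.add_mul_emod_self_right]

lemma Psi_eq (p d : ℕ) (hd : 1 ≤ d) (k : ℤ) (y : ℤ) (h1 : -(d : ℤ) ≤ y) (h2 : y < 2 * d) :
    Psi p d k y = ∑ r ∈ range 4, Phi p d k (y + ((r : ℤ) - 2) * d) := by
  have hdZ : (0 : ℤ) < d := by exact_mod_cast hd
  simp only [Finset.sum_range_succ, Finset.sum_range_zero, zero_add]
  push_cast
  unfold Psi
  rcases lt_or_ge y 0 with h | h
  · have e : y % (d : ℤ) = y + d := by
      rw [← Int.add_emod_right, Int.emod_eq_of_lt (by omega) (by omega)]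
    rw [e, Phi_supp p d hd k (y + -2 * d) (by intro h; linarith [h.1]),
      Phi_supp p d hd k (y + -1 * d) (by intro h; linarith [h.1])]
    rw [show y + (d : ℤ) - d = y by ring, show y + 0 * (d : ℤ) = y by ring,
      show y + 1 * (d : ℤ) = y + d by ring]
    ring
  · rcases lt_or_ge y d with h3 | h3
    · have e : y % (d : ℤ) = y := Int.emod_eq_of_lt h h3
      rw [e, Phi_supp p d hd k (y + -2 * d) (by intro h; linarith [h.1]),
        Phi_supp p d hd k (y + 1 * d) (by intro h; linarith [h.2])]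
      rw [show y + -1 * (d : ℤ) = y - d by ring, show y + 0 * (d : ℤ) = y by ring]
      ring
    · have e : y % (d : ℤ) = y - d := by
        have : y % (d : ℤ) = (y - d) % (d : ℤ) := by
          rw [Int.sub_emod_right]
        rw [this, Int.emod_eq_of_lt (by omega) (by omega)]
      rw [e, Phi_supp p d hd k (y + 0 * d) (by intro h; linarith [h.2]),
        Phi_supp p d hd k (y + 1 * d) (by intro h; linarith [h.2])]
      rw [show y + -1 * (d : ℤ) = y - d by ring,
        show y + -2 * (d : ℤ) = y - d - d by ring]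
      ring

lemma sum_shift (d : ℕ) (F : ℤ → ℂ) :
    ∑ x ∈ Ico (0 : ℤ) d, F (x - d) = ∑ x ∈ Ico (-(d : ℤ)) 0, F x := by
  apply Finset.sum_bij (fun (x : ℤ) _ => x - (d : ℤ))
  · intro x hx
    rw [mem_Ico] at hx ⊢
    omega
  · intro x _ y _ hxy
    omega
  · intro y hy
    rw [mem_Ico] at hy
    refine ⟨y + d, ?_, ?_⟩
    · rw [mem_Ico]; omega
    · omega
  · intro x _
    rfl

lemma sum_split (d : ℕ) (F : ℤ → ℂ) :
    ∑ x ∈ Ico (-(d : ℤ)) d, F x = ∑ x ∈ Ico (-(d : ℤ)) 0, F x + ∑ x ∈ Ico (0 : ℤ) d, F x := by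
  rw [← Finset.Ico_union_Ico_eq_Ico (show -(d : ℤ) ≤ 0 by omega) (show (0 : ℤ) ≤ d by omega),
    Finset.sum_union (Finset.Ico_disjoint_Ico_consecutive _ _ _)]

lemma ee_period (d : ℕ) (hd : 1 ≤ d) (b x : ℤ) : ee (b * ((x - d : ℤ) : ℝ) / d) = ee (b * x / d) := by
  have hd0 : (d : ℝ) ≠ 0 := by positivity
  have e : (b : ℝ) * ((x - d : ℤ) : ℝ) / d = b * x / d + ((-b : ℤ) : ℝ) := by
    push_cast
    field_simp
    ring
  rw [e, ee_add, ee_int, mul_one]

/-- the ambiguity function of the folded function -/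
noncomputable def amb (p d : ℕ) (k : ℤ) (a b : ℤ) : ℂ :=
  ∑ x ∈ Ico (0 : ℤ) d, ee (b * x / d) * Psi p d k x * (starRingEnd ℂ) (Psi p d k (x + a))

theorem fold (p d : ℕ) (hd : 1 ≤ d) (k : ℤ) (a b : ℤ) (ha : 0 ≤ a) (had : a < d) :
    amb p d k a b =
      ∑ r ∈ range 4, ∑ i : Fin 2, ∑ j : Fin 2, piece p d k i j (a + ((r : ℤ) - 2) * d) b := by
  have h1 : amb p d k a b = ∑ x ∈ Ico (-(d : ℤ)) d,
      ee (b * x / d) * Phi p d k x * (starRingEnd ℂ) (Psi p d k (x + a)) := by
    unfold amb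
    have e1 : ∀ x ∈ Ico (0 : ℤ) d, ee (b * x / d) * Psi p d k x *
        (starRingEnd ℂ) (Psi p d k (x + a)) =
        ee (b * x / d) * Phi p d k x * (starRingEnd ℂ) (Psi p d k (x + a)) +
        ee (b * ((x - d : ℤ) : ℝ) / d) * Phi p d k (x - d) *
          (starRingEnd ℂ) (Psi p d k (x - d + a)) := by
      intro x hx
      rw [mem_Ico] at hx
      have e2 : Psi p d k x = Phi p d k x + Phi p d k (x - d) := by
        unfold Psi
        rw [Int.emod_eq_of_lt hx.1 hx.2]
      have e3 : Psi p d k (x - d + a) = Psi p d k (x + a) := by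
        have := Psi_add p d k (x + a) (-1)
        rw [← this]
        congr 1
        ring
      rw [ee_period d hd, e3, e2]
      ring
    rw [Finset.sum_congr rfl e1, Finset.sum_add_distrib,
      sum_shift d (fun x => ee (b * (x : ℝ) / d) * Phi p d k x *
        (starRingEnd ℂ) (Psi p d k (x + a)))]
    rw [sum_split, add_comm]
  rw [h1]
  have h2 : ∀ x ∈ Ico (-(d : ℤ)) d, ee (b * x / d) * Phi p d k x *
      (starRingEnd ℂ) (Psi p d k (x + a)) =
      ∑ r ∈ range 4, ∑ i : Fin 2, ∑ j : Fin 2, ee (b * x / d) * phi p d k i x *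
        (starRingEnd ℂ) (phi p d k j (x + (a + ((r : ℤ) - 2) * d))) := by
    intro x hx
    rw [mem_Ico] at hx
    rw [Psi_eq p d hd k (x + a) (by omega) (by omega), map_sum, Finset.mul_sum]
    refine Finset.sum_congr rfl fun r _ => ?_
    rw [show x + a + ((r : ℤ) - 2) * d = x + (a + ((r : ℤ) - 2) * d) by ring]
    unfold Phi
    rw [map_sum, mul_assoc, Finset.sum_mul_sum, Finset.mul_sum]
    refine Finset.sum_congr rfl fun i _ => ?_
    rw [Finset.mul_sum]
    refine Finset.sum_congr rfl fun j _ => ?_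
    ring
  rw [Finset.sum_congr rfl h2, Finset.sum_comm]
  refine Finset.sum_congr rfl fun r _ => ?_
  rw [Finset.sum_comm]
  refine Finset.sum_congr rfl fun i _ => ?_
  rw [Finset.sum_comm]
  rfl

lemma good (p d : ℕ) (hd : 1 ≤ d) (hpd : 2 * d + 1 ≤ p) (k : ℤ)
    (hk1 : 3 * (d : ℤ) ≤ 2 * k) (hk2 : 2 * k ≤ 3 * d + 1) (i j : Fin 2) (t : ℤ)
    (h : ¬ (i = j ∧ t = 0)) :
    (∀ x, win d i x * win d j (x + t) = 0) ∨ ¬ (p : ℤ) ∣ t + ks k j - ks k i := by
  by_cases hz : ∀ x, win d i x * win d j (x + t) = 0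
  · exact Or.inl hz
  · right
    push Not at hz
    obtain ⟨x, hx⟩ := hz
    have h1 := win_supp' d hd i x (left_ne_zero_of_mul hx)
    have h2 := win_supp' d hd j (x + t) (right_ne_zero_of_mul hx)
    intro hdvd
    have h3 : t + ks k j - ks k i = 0 ∨ (p : ℤ) ≤ |t + ks k j - ks k i| := by
      by_contra hcon
      push Not at hcon
      exact hcon.1 (Int.eq_zero_of_abs_lt_dvd hdvd hcon.2)
    fin_cases i <;> fin_cases j
    · have a1 := h1.1 rfl
      have a2 := h2.1 rfl
      simp [ks] at h3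
      have : t ≠ 0 := fun h0 => h ⟨rfl, h0⟩
      rcases h3 with h3 | h3
      · exact this h3
      · rcases abs_cases t with ⟨h4, _⟩ | ⟨h4, _⟩ <;> omega
    · have a1 := h1.1 rfl
      have a2 := h2.2 rfl
      simp [ks] at h3
      rcases h3 with h3 | h3
      · omega
      · rcases abs_cases (t + k) with ⟨h4, _⟩ | ⟨h4, _⟩ <;> omega
    · have a1 := h1.2 rfl
      have a2 := h2.1 rfl
      simp [ks] at h3
      rcases h3 with h3 | h3
      · omega
      · rcases abs_cases (t - k) with ⟨h4, _⟩ | ⟨h4, _⟩ <;> omega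
    · have a1 := h1.2 rfl
      have a2 := h2.2 rfl
      simp [ks] at h3
      have : t ≠ 0 := fun h0 => h ⟨rfl, h0⟩
      rcases h3 with h3 | h3
      · exact this h3
      · rcases abs_cases t with ⟨h4, _⟩ | ⟨h4, _⟩ <;> omega

lemma phi_sq (p d : ℕ) (k : ℤ) (i : Fin 2) (x : ℤ) :
    phi p d k i x * (starRingEnd ℂ) (phi p d k i x) = ((win d i x ^ 2 : ℝ) : ℂ) := by
  rw [Complex.mul_conj']
  unfold phi
  rw [norm_mul, norm_ee, mul_one, Complex.norm_real, Real.norm_eq_abs]
  push_cast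
  rw [← Complex.ofReal_pow, sq_abs]
  push_cast
  ring

lemma win_one (d : ℕ) (x : ℤ) : win d 1 x =
    if -(d : ℤ) ≤ 2 * x ∧ 2 * x ≤ d then Real.cos (Real.pi * x / d) else 0 := by
  unfold win
  rw [if_neg (show ¬ ((1 : Fin 2) = 0) by decide)]

theorem diag (p d : ℕ) (hd : 1 ≤ d) (k : ℤ) (b : ℤ) :
    ∑ i : Fin 2, piece p d k i i 0 b = ∑ x ∈ Ico (0 : ℤ) d, ee (b * x / d) := by
  have h1 : ∀ i : Fin 2, piece p d k i i 0 b =
      ∑ x ∈ Ico (0 : ℤ) d, ee (b * x / d) *
        ((win d i x ^ 2 + win d i (x - d) ^ 2 : ℝ) : ℂ) := by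
    intro i
    unfold piece
    have e1 : ∀ x : ℤ, ee (b * x / d) * phi p d k i x *
        (starRingEnd ℂ) (phi p d k i (x + 0)) = ee (b * x / d) * ((win d i x ^ 2 : ℝ) : ℂ) := by
      intro x
      rw [add_zero, mul_assoc, phi_sq]
    simp_rw [e1]
    rw [sum_split, ← sum_shift d, ← Finset.sum_add_distrib]
    refine Finset.sum_congr rfl fun x _ => ?_
    rw [ee_period d hd]
    push_cast
    ring
  simp_rw [h1]
  rw [Finset.sum_comm]
  refine Finset.sum_congr rfl fun x hx => ?_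
  rw [← Finset.mul_sum]
  have hd0 : (0 : ℝ) < d := by exact_mod_cast hd
  rw [mem_Ico] at hx
  have e : ∑ i : Fin 2, (((win d i x ^ 2 + win d i (x - d) ^ 2 : ℝ)) : ℂ) = 1 := by
    rw [Fin.sum_univ_two]
    have e0 : win d 0 x = Real.sin (Real.pi * x / d) := by
      unfold win
      rw [if_pos rfl, if_pos ⟨hx.1, hx.2.le⟩]
    have e1 : win d 0 (x - d) = 0 := by
      unfold win
      rw [if_pos rfl, if_neg (by omega)]
    have e2 : win d 1 x ^ 2 + win d 1 (x - d) ^ 2 = Real.cos (Real.pi * x / d) ^ 2 := by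
      have c1 : Real.cos (Real.pi * ((x - d : ℤ) : ℝ) / d) = -Real.cos (Real.pi * x / d) := by
        rw [show Real.pi * ((x - d : ℤ) : ℝ) / d = Real.pi * x / d - Real.pi by
          push_cast; field_simp]
        rw [Real.cos_sub_pi]
      rw [win_one, win_one]
      rcases lt_trichotomy (2 * x) (d : ℤ) with h | h | h
      · rw [if_pos (by omega), if_neg (by omega)]
        ring
      · have h5 : Real.cos (Real.pi * x / d) = 0 := by
          have h6 : 2 * (x : ℝ) = d := by exact_mod_cast h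
          have e : Real.pi * (x : ℝ) / d = Real.pi / 2 := by
            have : (x : ℝ) = (d : ℝ) / 2 := by linarith
            rw [this]
            field_simp
          rw [e, Real.cos_pi_div_two]
        split_ifs
        · rw [c1, h5]; simp
        · rw [h5]; simp
        · rw [c1, h5]; simp
        · rw [h5]; simp
      · rw [if_neg (by omega), if_pos (by omega), c1]
        ring
    rw [e0, e1]
    have e3 := Real.sin_sq_add_cos_sq (Real.pi * x / d)
    have e4 : (Real.sin (Real.pi * x / d) ^ 2 + (0 : ℝ) ^ 2) +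
        (win d 1 x ^ 2 + win d 1 (x - d) ^ 2) = 1 := by
      rw [e2]; linarith
    exact_mod_cast e4
  rw [e, mul_one]

/-- The ambiguity function of the folded function is `O(√p)` off the origin. -/
theorem amb_bound (p d : ℕ) (hp : p.Prime) (hp3 : 3 < p) (hd : 1 ≤ d) (hpd : 2 * d + 1 ≤ p)
    (k : ℤ) (hk1 : 3 * (d : ℤ) ≤ 2 * k) (hk2 : 2 * k ≤ 3 * d + 1) (a b : ℤ)
    (ha : 0 ≤ a) (had : a < d) :
    ‖amb p d k a b - (if a = 0 then ∑ x ∈ Ico (0 : ℤ) d, ee (b * x / d) else 0)‖ ≤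
      224 * Real.sqrt p := by
  have hdZ : (0 : ℤ) < d := by exact_mod_cast hd
  have h1 : (if a = 0 then ∑ x ∈ Ico (0 : ℤ) d, ee (b * x / d) else 0) =
      ∑ r ∈ range 4, ∑ i : Fin 2, ∑ j : Fin 2,
        if i = j ∧ a + ((r : ℤ) - 2) * d = 0 then piece p d k i j (a + ((r : ℤ) - 2) * d) b
        else 0 := by
    by_cases ha0 : a = 0
    · rw [if_pos ha0, ← diag p d hd k b]
      have : ∀ r ∈ range 4, (∑ i : Fin 2, ∑ j : Fin 2,
        if i = j ∧ a + ((r : ℤ) - 2) * d = 0 then piece p d k i j (a + ((r : ℤ) - 2) * d) b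
        else 0) = if r = 2 then ∑ i : Fin 2, piece p d k i i 0 b else 0 := by
        intro r hr
        by_cases hr2 : r = 2
        · subst hr2
          rw [if_pos rfl, ha0]
          refine Finset.sum_congr rfl fun i _ => ?_
          simp
        · rw [if_neg hr2]
          refine Finset.sum_eq_zero fun i _ => Finset.sum_eq_zero fun j _ => ?_
          rw [if_neg]
          rintro ⟨_, h⟩
          rw [ha0, zero_add] at h
          rcases mul_eq_zero.mp h with h | h <;> omega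
      rw [Finset.sum_congr rfl this]
      simp
    · rw [if_neg ha0]
      symm
      refine Finset.sum_eq_zero fun r hr => Finset.sum_eq_zero fun i _ =>
        Finset.sum_eq_zero fun j _ => ?_
      rw [if_neg]
      rintro ⟨_, h⟩
      have h2 : (d : ℤ) ∣ a := ⟨-((r : ℤ) - 2), by linarith⟩
      have h3 := Int.eq_zero_of_abs_lt_dvd h2 (by rw [abs_of_nonneg ha]; exact had)
      exact ha0 h3
  rw [h1, fold p d hd k a b ha had, ← Finset.sum_sub_distrib]
  have h2 : ∀ r ∈ range 4, ‖∑ i : Fin 2, ∑ j : Fin 2, piece p d k i j (a + ((r : ℤ) - 2) * d) b -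
      ∑ i : Fin 2, ∑ j : Fin 2,
        if i = j ∧ a + ((r : ℤ) - 2) * d = 0 then piece p d k i j (a + ((r : ℤ) - 2) * d) b
        else 0‖ ≤ 4 * (14 * Real.sqrt p) := by
    intro r _
    rw [← Finset.sum_sub_distrib]
    have h3 : ∀ i : Fin 2, ‖∑ j : Fin 2, piece p d k i j (a + ((r : ℤ) - 2) * d) b -
        ∑ j : Fin 2, if i = j ∧ a + ((r : ℤ) - 2) * d = 0 then
          piece p d k i j (a + ((r : ℤ) - 2) * d) b else 0‖ ≤ 2 * (14 * Real.sqrt p) := by
      intro i
      rw [← Finset.sum_sub_distrib]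
      have h4 : ∀ j : Fin 2, ‖piece p d k i j (a + ((r : ℤ) - 2) * d) b -
          if i = j ∧ a + ((r : ℤ) - 2) * d = 0 then
          piece p d k i j (a + ((r : ℤ) - 2) * d) b else 0‖ ≤ 14 * Real.sqrt p := by
        intro j
        by_cases hc : i = j ∧ a + ((r : ℤ) - 2) * d = 0
        · rw [if_pos hc, sub_self, norm_zero]
          positivity
        · rw [if_neg hc, sub_zero]
          exact piece_bound p d hp hp3 hd hpd k i j _ b (good p d hd hpd k hk1 hk2 i j _ hc)
      refine (norm_sum_le _ _).trans ((Finset.sum_le_sum fun j _ => h4 j).trans ?_)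
      rw [Finset.sum_const]
      simp
    refine (norm_sum_le _ _).trans ((Finset.sum_le_sum fun i _ => h3 i).trans ?_)
    rw [Finset.sum_const]
    simp
    linarith
  refine (norm_sum_le _ _).trans ((Finset.sum_le_sum h2).trans ?_)
  rw [Finset.sum_const]
  simp
  linarith [Real.sqrt_nonneg (p : ℝ)]

end Pool.Agent.Q162.WH
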