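import Mathlib

set_option autoImplicit false

open Finset

namespace Pool.Agent.Q162.WH

/-- `e(t) = exp(2πit)` -/
noncomputable def ee (t : ℝ) : ℂ := Complex.exp (2 * Real.pi * t * Complex.I)

lemma ee_add (s t : ℝ) : ee (s + t) = ee s * ee t := by
  unfold ee
  rw [← Complex.exp_add]
  congr 1
  push_cast
  ring

lemma ee_zero : ee 0 = 1 := by simp [ee]

lemma norm_ee (t : ℝ) : ‖ee t‖ = 1 := by
  unfold ee
  have : (2 * Real.pi * t * Complex.I : ℂ) = ((2 * Real.pi * t : ℝ) : ℂ) * Complex.I := by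
    push_cast; ring
  rw [this, Complex.norm_exp_ofReal_mul_I]

lemma ee_neg (t : ℝ) : ee (-t) = (starRingEnd ℂ) (ee t) := by
  unfold ee
  rw [← Complex.exp_conj]
  congr 1
  simp only [map_mul, Complex.conj_I, Complex.conj_ofReal, map_ofNat]
  push_cast
  ring

lemma ee_int (n : ℤ) : ee n = 1 := by
  unfold ee
  rw [show (2 * Real.pi * ((n : ℝ) : ℂ) * Complex.I : ℂ) = n * (2 * Real.pi * Complex.I) by
    push_cast; ring]
  exact Complex.exp_int_mul_two_pi_mul_I n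

lemma ee_eq_one {t : ℝ} (h : ee t = 1) : ∃ n : ℤ, t = n := by
  unfold ee at h
  rw [Complex.exp_eq_one_iff] at h
  obtain ⟨n, hn⟩ := h
  refine ⟨n, ?_⟩
  have h2 : (2 * Real.pi * Complex.I : ℂ) ≠ 0 := by
    simp [Real.pi_ne_zero]
  have h3 : ((t : ℝ) : ℂ) * (2 * Real.pi * Complex.I) = (n : ℂ) * (2 * Real.pi * Complex.I) := by
    rw [← hn]; ring
  have h4 := mul_right_cancel₀ h2 h3
  exact_mod_cast h4

lemma ee_nat_mul (n : ℕ) (t : ℝ) : ee (n * t) = ee t ^ n := by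
  unfold ee
  rw [← Complex.exp_nat_mul]
  congr 1
  push_cast
  ring

/-- geometric sums over a complete period vanish -/
lemma sum_period (p : ℕ) (hp : 0 < p) (n : ℤ) (hn : ¬ (p : ℤ) ∣ n) (m : ℤ) :
    ∑ x ∈ Ico m (m + p), ee (n * x / p) = 0 := by
  have hpR : (p : ℝ) ≠ 0 := by positivity
  have h1 : ∑ x ∈ Ico m (m + p), ee (n * x / p) =
      ∑ k ∈ range p, ee (n * m / p) * ee (n / p) ^ k := by
    symm
    apply Finset.sum_bij (fun (k : ℕ) _ => m + (k : ℤ))
    · intro k hk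
      rw [mem_range] at hk
      rw [mem_Ico]
      omega
    · intro a _ b _ h
      have : (a : ℤ) = b := by linarith
      exact_mod_cast this
    · intro b hb
      rw [mem_Ico] at hb
      refine ⟨(b - m).toNat, ?_, ?_⟩
      · rw [mem_range]; omega
      · omega
    · intro k _
      rw [← ee_nat_mul, ← ee_add]
      congr 1
      push_cast
      field_simp
  rw [h1, ← mul_sum]
  have h2 : ee (n / p) ≠ 1 := by
    intro h
    obtain ⟨k, hk⟩ := ee_eq_one h
    apply hn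
    refine ⟨k, ?_⟩
    have : (n : ℝ) = p * k := by
      rw [div_eq_iff hpR] at hk
      linarith
    exact_mod_cast this
  rw [geom_sum_eq h2, ← ee_nat_mul]
  have h3 : ((p : ℕ) : ℝ) * (n / p) = n := by field_simp
  rw [h3, ee_int]
  simp

/-- quadratic phases -/
noncomputable def GG (p : ℕ) (c : ℤ) (θ : ℝ) (x : ℤ) : ℂ := ee (c * x ^ 2 / p + θ * x)

lemma norm_GG (p : ℕ) (c : ℤ) (θ : ℝ) (x : ℤ) : ‖GG p c θ x‖ = 1 := norm_ee _

lemma corr (p : ℕ) (hp : 0 < p) (c : ℤ) (θ : ℝ) (m h k : ℤ)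
    (hk : ¬ (p : ℤ) ∣ 2 * c * (h - k)) :
    ∑ x ∈ Ico m (m + p), GG p c θ (x + h) * (starRingEnd ℂ) (GG p c θ (x + k)) = 0 := by
  have h1 : ∀ x : ℤ, GG p c θ (x + h) * (starRingEnd ℂ) (GG p c θ (x + k)) =
      ee (c * (h ^ 2 - k ^ 2) / p + θ * (h - k)) * ee ((2 * c * (h - k) : ℤ) * x / p) := by
    intro x
    unfold GG
    rw [← ee_neg, ← ee_add, ← ee_add]
    congr 1
    push_cast
    ring
  simp_rw [h1]
  rw [← mul_sum, sum_period p hp _ hk m, mul_zero]

/-- mean square of sums of consecutive values -/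
lemma meansq (p : ℕ) (hp : 0 < p) (c : ℤ) (θ : ℝ) (m : ℤ) (s H : ℕ) (hsH : s ≤ H)
    (hH : H ≤ p) (hc : ∀ k : ℤ, k ≠ 0 → |k| < p → ¬ (p : ℤ) ∣ 2 * c * k) :
    ∑ x ∈ Ico m (m + p), ‖∑ h ∈ Ico s H, GG p c θ (x + h)‖ ^ 2 = p * (H - s : ℝ) := by
  have h1 : ((∑ x ∈ Ico m (m + p), ‖∑ h ∈ Ico s H, GG p c θ (x + h)‖ ^ 2 : ℝ) : ℂ) =
      (p * (H - s : ℝ) : ℝ) := by
    push_cast
    have h2 : ∀ x : ℤ, ((‖∑ h ∈ Ico s H, GG p c θ (x + h)‖ : ℝ) : ℂ) ^ 2 =
        ∑ h ∈ Ico s H, ∑ k ∈ Ico s H, GG p c θ (x + h) * (starRingEnd ℂ) (GG p c θ (x + k)) := by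
      intro x
      rw [← Complex.mul_conj', map_sum, Finset.sum_mul_sum]
    simp_rw [h2]
    rw [Finset.sum_comm]
    have h3 : ∀ h ∈ Ico s H, ∑ x ∈ Ico m (m + (p : ℤ)), ∑ k ∈ Ico s H,
        GG p c θ (x + h) * (starRingEnd ℂ) (GG p c θ (x + k)) = (p : ℂ) := by
      intro h hh
      rw [Finset.sum_comm]
      rw [Finset.sum_eq_single_of_mem h hh]
      · have : ∀ x : ℤ, GG p c θ (x + h) * (starRingEnd ℂ) (GG p c θ (x + h)) = 1 := by
          intro x
          rw [Complex.mul_conj', norm_GG]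
          simp
        simp_rw [this]
        simp
      · intro k hk hkh
        rw [mem_Ico] at hh hk
        apply corr p hp
        apply hc
        · intro h0
          apply hkh
          omega
        · rw [abs_lt]
          constructor <;> omega
    rw [Finset.sum_congr rfl h3]
    simp only [sum_const, Nat.card_Ico, nsmul_eq_mul]
    rw [Nat.cast_sub hsH]
    push_cast
    ring
  exact_mod_cast h1

lemma cs_bound {I : Finset ℤ} (a : ℤ → ℂ) (B : ℤ → ℂ) (A Q : ℝ)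
    (hA : ∑ x ∈ I, ‖a x‖ ^ 2 ≤ A) (hQ : ∑ x ∈ I, ‖B x‖ ^ 2 ≤ Q) :
    ‖∑ x ∈ I, a x * B x‖ ≤ Real.sqrt A * Real.sqrt Q := by
  have hA0 : 0 ≤ A := le_trans (Finset.sum_nonneg fun x _ => by positivity) hA
  rw [← Real.sqrt_mul hA0]
  apply Real.le_sqrt_of_sq_le
  calc ‖∑ x ∈ I, a x * B x‖ ^ 2 ≤ (∑ x ∈ I, ‖a x‖ * ‖B x‖) ^ 2 := by
        gcongr
        refine (norm_sum_le _ _).trans (le_of_eq ?_)
        exact Finset.sum_congr rfl fun x _ => norm_mul _ _
    _ ≤ (∑ x ∈ I, ‖a x‖ ^ 2) * ∑ x ∈ I, ‖B x‖ ^ 2 := Finset.sum_mul_sq_le_sq_mul_sq _ _ _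
    _ ≤ A * Q := by
        apply mul_le_mul hA hQ (Finset.sum_nonneg fun x _ => by positivity) hA0

/-- **Key inequality.** Sums of quadratic phases modulo `p` with a slowly varying weight supported on
an interval of length `d < p / 2` are `O(√p)`. -/
theorem key (p : ℕ) (c : ℤ) (θ : ℝ) (d : ℕ) (hd : 1 ≤ d) (hpd : 2 * d + 1 ≤ p)
    (hc : ∀ k : ℤ, k ≠ 0 → |k| < p → ¬ (p : ℤ) ∣ 2 * c * k) (m : ℤ) (W : ℤ → ℝ)
    (hs : ∀ x, W x ≠ 0 → m ≤ x ∧ x ≤ m + d) (hW : ∀ x, |W x| ≤ 1)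
    (hD : ∀ x, |W (x + 1) - W x| ≤ 7 / d) :
    ‖∑ x ∈ Icc m (m + d), (W x : ℂ) * GG p c θ x‖ ≤ 14 * Real.sqrt p := by
  have hdR : (1 : ℝ) ≤ d := by exact_mod_cast hd
  have hp : 0 < p := by omega
  set S := ∑ x ∈ Icc m (m + d), (W x : ℂ) * GG p c θ x with hS
  set J := Ico (m - d) (m - d + p) with hJ
  -- all shifted sums are equal to S
  have h1 : ∀ h ∈ range d, ∑ x ∈ J, (W (x + h) : ℂ) * GG p c θ (x + h) = S := by
    intro h hh
    rw [mem_range] at hh
    rw [hS]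
    symm
    have e1 : ∑ x ∈ J, (W (x + h) : ℂ) * GG p c θ (x + h) =
        ∑ y ∈ Ico (m - d + h) (m - d + p + h), (W y : ℂ) * GG p c θ y := by
      rw [hJ]
      apply Finset.sum_bij (fun (x : ℤ) _ => x + (h : ℤ))
      · intro x hx
        rw [mem_Ico] at hx ⊢
        omega
      · intro x _ y _ hxy
        omega
      · intro y hy
        rw [mem_Ico] at hy
        refine ⟨y - h, ?_, ?_⟩
        · rw [mem_Ico]; omega
        · omega
      · intro x _
        rfl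
    rw [e1]
    apply Finset.sum_subset
    · intro x hx
      rw [mem_Icc] at hx
      rw [mem_Ico]
      omega
    · intro x _ hx
      have : W x = 0 := by
        by_contra h0
        exact hx (mem_Icc.mpr (hs x h0))
      rw [this]
      simp
  have h2 : (d : ℂ) * S = ∑ x ∈ J, ∑ h ∈ range d, (W (x + h) : ℂ) * GG p c θ (x + h) := by
    rw [Finset.sum_comm, Finset.sum_congr rfl h1]
    simp
  -- Abel summation
  have h3 : ∀ x : ℤ, ∑ h ∈ range d, (W (x + h) : ℂ) * GG p c θ (x + h) =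
      (W x : ℂ) * (∑ h ∈ Ico 0 d, GG p c θ (x + h)) +
      ∑ s ∈ Ico 1 d, ((W (x + s) - W (x + s - 1) : ℝ) : ℂ) *
        ∑ h ∈ Ico s d, GG p c θ (x + h) := by
    intro x
    have e1 : ∀ h : ℕ, (W (x + h) : ℂ) = (W x : ℂ) +
        ∑ s ∈ Ico 1 (h + 1), ((W (x + s) - W (x + s - 1) : ℝ) : ℂ) := by
      intro h
      induction h with
      | zero => simp
      | succ h ih =>
        rw [Finset.sum_Ico_succ_top (by omega), ← add_assoc, ← ih]
        push_cast
        rw [show x + ((h : ℤ) + 1) - 1 = x + h by ring]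
        ring
    have e2 : ∑ h ∈ range d, (W (x + h) : ℂ) * GG p c θ (x + h) =
        ∑ h ∈ range d, (W x : ℂ) * GG p c θ (x + h) +
        ∑ h ∈ range d, ∑ s ∈ Ico 1 (h + 1), ((W (x + s) - W (x + s - 1) : ℝ) : ℂ) *
          GG p c θ (x + h) := by
      rw [← Finset.sum_add_distrib]
      refine Finset.sum_congr rfl fun h _ => ?_
      rw [e1 h, add_mul, Finset.sum_mul]
    rw [e2, ← Finset.mul_sum, Finset.range_eq_Ico]
    congr 1
    have e3 : ∑ h ∈ Ico 0 d, ∑ s ∈ Ico 1 (h + 1), ((W (x + s) - W (x + s - 1) : ℝ) : ℂ) *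
          GG p c θ (x + h) = ∑ s ∈ Ico 1 d, ∑ h ∈ Ico s d,
            ((W (x + s) - W (x + s - 1) : ℝ) : ℂ) * GG p c θ (x + h) := by
      apply Finset.sum_comm'
      intro h s
      simp only [mem_Ico]
      omega
    rw [e3]
    refine Finset.sum_congr rfl fun s _ => ?_
    rw [Finset.mul_sum]
  have hB : ∀ s : ℕ, s ≤ d → ∑ x ∈ J, ‖∑ h ∈ Ico s d, GG p c θ (x + h)‖ ^ 2 ≤ p * d := by
    intro s hsd
    rw [hJ, meansq p hp c θ (m - d) s d hsd (by omega) hc]
    have : (0 : ℝ) ≤ s := by positivity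
    nlinarith [(by positivity : (0 : ℝ) < p)]
  have hA0 : ∑ x ∈ J, ‖(W x : ℂ)‖ ^ 2 ≤ d + 1 := by
    have e1 : ∑ x ∈ J, ‖(W x : ℂ)‖ ^ 2 ≤ ∑ x ∈ J, if x ∈ Icc m (m + d) then (1 : ℝ) else 0 := by
      refine Finset.sum_le_sum fun x _ => ?_
      split_ifs with hx
      · rw [Complex.norm_real, Real.norm_eq_abs]
        have := hW x
        have h0 := abs_nonneg (W x)
        nlinarith
      · have : W x = 0 := by
          by_contra h0
          exact hx (mem_Icc.mpr (hs x h0))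
        rw [this]
        simp
    refine e1.trans ?_
    rw [← Finset.sum_filter, Finset.sum_const, nsmul_eq_mul, mul_one]
    have e2 : (J.filter fun x => x ∈ Icc m (m + d)).card ≤ (Icc m (m + (d : ℤ))).card := by
      apply Finset.card_le_card
      intro x hx
      exact (mem_filter.mp hx).2
    rw [Int.card_Icc] at e2
    have e3 : (J.filter fun x => x ∈ Icc m (m + d)).card ≤ d + 1 := by omega
    exact_mod_cast e3
  have hA1 : ∀ s : ℕ, ∑ x ∈ J, ‖((W (x + s) - W (x + s - 1) : ℝ) : ℂ)‖ ^ 2 ≤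
      (d + 2) * (7 / d) ^ 2 := by
    intro s
    have e1 : ∑ x ∈ J, ‖((W (x + s) - W (x + s - 1) : ℝ) : ℂ)‖ ^ 2 ≤
        ∑ x ∈ J, if x ∈ Icc (m - s) (m - s + (d + 1)) then ((7 : ℝ) / d) ^ 2 else 0 := by
      refine Finset.sum_le_sum fun x _ => ?_
      split_ifs with hx
      · rw [Complex.norm_real, Real.norm_eq_abs]
        have h4 := hD (x + s - 1)
        rw [show x + (s : ℤ) - 1 + 1 = x + s by ring] at h4
        gcongr
      · have h5 : W (x + s) = 0 := by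
          by_contra h0
          apply hx
          have := hs _ h0
          rw [mem_Icc]
          omega
        have h6 : W (x + s - 1) = 0 := by
          by_contra h0
          apply hx
          have := hs _ h0
          rw [mem_Icc]
          omega
        rw [h5, h6]
        simp
    refine e1.trans ?_
    rw [← Finset.sum_filter, Finset.sum_const, nsmul_eq_mul]
    have e2 : (J.filter fun x => x ∈ Icc (m - s) (m - s + (d + 1))).card ≤
        (Icc (m - s) (m - s + ((d : ℤ) + 1))).card := by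
      apply Finset.card_le_card
      intro x hx
      exact (mem_filter.mp hx).2
    rw [Int.card_Icc] at e2
    have e3 : (J.filter fun x => x ∈ Icc (m - s) (m - s + (d + 1))).card ≤ d + 2 := by omega
    have e4 : ((J.filter fun x => x ∈ Icc (m - s) (m - s + (d + 1))).card : ℝ) ≤ d + 2 := by
      exact_mod_cast e3
    gcongr
  -- conclusion
  have h4 : (d : ℂ) * S = ∑ x ∈ J, (W x : ℂ) * (∑ h ∈ Ico 0 d, GG p c θ (x + h)) +
      ∑ s ∈ Ico 1 d, ∑ x ∈ J, ((W (x + s) - W (x + s - 1) : ℝ) : ℂ) *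
        ∑ h ∈ Ico s d, GG p c θ (x + h) := by
    rw [h2, Finset.sum_congr rfl fun x _ => h3 x, Finset.sum_add_distrib, Finset.sum_comm (s := J)]
  have h5 : ‖(d : ℂ) * S‖ ≤ Real.sqrt (d + 1) * Real.sqrt (p * d) +
      d * (Real.sqrt ((d + 2) * (7 / d) ^ 2) * Real.sqrt (p * d)) := by
    rw [h4]
    refine (norm_add_le _ _).trans ?_
    refine add_le_add (cs_bound _ _ _ _ hA0 (hB 0 (by omega))) ?_
    refine (norm_sum_le _ _).trans ?_
    have e1 : ∀ s ∈ Ico 1 d, ‖∑ x ∈ J, ((W (x + s) - W (x + s - 1) : ℝ) : ℂ) *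
        ∑ h ∈ Ico s d, GG p c θ (x + h)‖ ≤
        Real.sqrt ((d + 2) * (7 / d) ^ 2) * Real.sqrt (p * d) := by
      intro s hs'
      rw [mem_Ico] at hs'
      exact cs_bound _ _ _ _ (hA1 s) (hB s (by omega))
    refine (Finset.sum_le_sum e1).trans ?_
    rw [Finset.sum_const, nsmul_eq_mul, Nat.card_Ico]
    gcongr
    omega
  rw [norm_mul, Complex.norm_natCast] at h5
  have hd0 : (0 : ℝ) < d := by linarith
  -- numerical estimates
  have s1 : Real.sqrt ((d : ℝ) + 1) ≤ 1.42 * Real.sqrt d := by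
    rw [show (1.42 : ℝ) * Real.sqrt d = Real.sqrt (1.42 ^ 2 * d) by
      rw [Real.sqrt_mul (by norm_num), Real.sqrt_sq (by norm_num)]]
    apply Real.sqrt_le_sqrt
    nlinarith
  have s2 : Real.sqrt (((d : ℝ) + 2) * (7 / d) ^ 2) ≤ 12.25 / Real.sqrt d := by
    rw [Real.sqrt_mul (by positivity), Real.sqrt_sq (by positivity)]
    rw [le_div_iff₀ (Real.sqrt_pos.mpr hd0)]
    have e : Real.sqrt ((d : ℝ) + 2) ≤ 1.75 * Real.sqrt d := by
      rw [show (1.75 : ℝ) * Real.sqrt d = Real.sqrt (1.75 ^ 2 * d) by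
        rw [Real.sqrt_mul (by norm_num), Real.sqrt_sq (by norm_num)]]
      apply Real.sqrt_le_sqrt
      nlinarith
    calc Real.sqrt ((d : ℝ) + 2) * (7 / d) * Real.sqrt d
        ≤ 1.75 * Real.sqrt d * (7 / d) * Real.sqrt d := by gcongr
      _ = 12.25 * (Real.sqrt d * Real.sqrt d) / d := by ring
      _ = 12.25 := by
          rw [Real.mul_self_sqrt hd0.le]
          field_simp
  have s3 : Real.sqrt ((p : ℝ) * d) = Real.sqrt p * Real.sqrt d := Real.sqrt_mul (by positivity) _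
  have hsq : Real.sqrt d * Real.sqrt d = (d : ℝ) := Real.mul_self_sqrt hd0.le
  have hsd : 0 < Real.sqrt (d : ℝ) := Real.sqrt_pos.mpr hd0
  have hsp : 0 ≤ Real.sqrt (p : ℝ) := Real.sqrt_nonneg _
  have h6 : (d : ℝ) * ‖S‖ ≤ d * (14 * Real.sqrt p) := by
    calc (d : ℝ) * ‖S‖ ≤ 1.42 * Real.sqrt d * (Real.sqrt p * Real.sqrt d) +
          d * (12.25 / Real.sqrt d * (Real.sqrt p * Real.sqrt d)) := by
          refine h5.trans ?_
          rw [s3]
          gcongr
      _ = 1.42 * Real.sqrt p * (Real.sqrt d * Real.sqrt d) + 12.25 * Real.sqrt p * d := by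
          field_simp
      _ = d * (13.67 * Real.sqrt p) := by
          rw [hsq]; ring
      _ ≤ d * (14 * Real.sqrt p) := by
          gcongr
          norm_num
  exact le_of_mul_le_mul_left h6 hd0

end Pool.Agent.Q162.WH
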