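import Pool.Agent.Q162.WH.Key

set_option autoImplicit false

open Finset

namespace Pool.Agent.Q162.WH

/-- the two windows -/
noncomputable def win (d : ℕ) (i : Fin 2) (x : ℤ) : ℝ :=
  if i = 0 then (if 0 ≤ x ∧ x ≤ d then Real.sin (Real.pi * x / d) else 0)
  else (if -(d : ℤ) ≤ 2 * x ∧ 2 * x ≤ d then Real.cos (Real.pi * x / d) else 0)

lemma sin_sub_le (a b : ℝ) : |Real.sin a - Real.sin b| ≤ |a - b| := by
  have := Real.lipschitzWith_sin.dist_le_mul a b
  simpa [Real.dist_eq] using this

lemma cos_sub_le (a b : ℝ) : |Real.cos a - Real.cos b| ≤ |a - b| := by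
  have := Real.lipschitzWith_cos.dist_le_mul a b
  simpa [Real.dist_eq] using this

lemma win_abs (d : ℕ) (i : Fin 2) (x : ℤ) : |win d i x| ≤ 1 := by
  unfold win
  split_ifs
  · exact Real.abs_sin_le_one _
  · simp
  · exact Real.abs_cos_le_one _
  · simp

lemma win_lip (d : ℕ) (hd : 1 ≤ d) (i : Fin 2) (x : ℤ) :
    |win d i (x + 1) - win d i x| ≤ Real.pi / d := by
  have hd0 : (0 : ℝ) < d := by exact_mod_cast hd
  have hpi := Real.pi_pos
  have hstep : |Real.pi * ((x + 1 : ℤ) : ℝ) / d - Real.pi * (x : ℝ) / d| = Real.pi / d := by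
    push_cast
    rw [show Real.pi * ((x : ℝ) + 1) / d - Real.pi * x / d = Real.pi / d by ring]
    exact abs_of_pos (by positivity)
  have hpos : 0 ≤ Real.pi / d := by positivity
  unfold win
  by_cases hi : i = 0
  · rw [if_pos hi, if_pos hi]
    by_cases h1 : 0 ≤ x + 1 ∧ x + 1 ≤ (d : ℤ)
    · by_cases h2 : 0 ≤ x ∧ x ≤ (d : ℤ)
      · rw [if_pos h1, if_pos h2]
        exact (sin_sub_le _ _).trans hstep.le
      · rw [if_pos h1, if_neg h2]
        have : x + 1 = 0 := by omega
        rw [this]
        simp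
        positivity
    · by_cases h2 : 0 ≤ x ∧ x ≤ (d : ℤ)
      · rw [if_neg h1, if_pos h2]
        have : x = d := by omega
        rw [this]
        have e : Real.pi * (((d : ℤ) : ℝ)) / d = Real.pi := by
          push_cast
          field_simp
        rw [e, Real.sin_pi]
        simp
        positivity
      · rw [if_neg h1, if_neg h2]
        simpa using hpos
  · rw [if_neg hi, if_neg hi]
    by_cases h1 : -(d : ℤ) ≤ 2 * (x + 1) ∧ 2 * (x + 1) ≤ (d : ℤ)
    · by_cases h2 : -(d : ℤ) ≤ 2 * x ∧ 2 * x ≤ (d : ℤ)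
      · rw [if_pos h1, if_pos h2]
        exact (cos_sub_le _ _).trans hstep.le
      · rw [if_pos h1, if_neg h2, sub_zero]
        have h3 : 2 * x + 1 ≤ -(d : ℤ) := by omega
        have h4 : (2 : ℝ) * x + 1 ≤ -d := by exact_mod_cast h3
        have h5 : -(d : ℝ) ≤ 2 * ((x : ℝ) + 1) := by exact_mod_cast h1.1
        rw [show Real.pi * ((x + 1 : ℤ) : ℝ) / d =
          (Real.pi / 2 + Real.pi * ((x + 1 : ℤ) : ℝ) / d) - Real.pi / 2 by ring,
          Real.cos_sub_pi_div_two]
        refine Real.abs_sin_le_abs.trans ?_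
        push_cast
        rw [show Real.pi / 2 + Real.pi * ((x : ℝ) + 1) / d =
          Real.pi / d * ((d + 2 * (x + 1)) / 2) by field_simp]
        rw [abs_mul, abs_of_nonneg hpos]
        refine mul_le_of_le_one_right hpos ?_
        rw [abs_le]
        constructor <;> linarith
    · by_cases h2 : -(d : ℤ) ≤ 2 * x ∧ 2 * x ≤ (d : ℤ)
      · rw [if_neg h1, if_pos h2, zero_sub, abs_neg]
        have h3 : (d : ℤ) ≤ 2 * x + 1 := by omega
        have h4 : (d : ℝ) ≤ 2 * x + 1 := by exact_mod_cast h3
        have h5 : 2 * (x : ℝ) ≤ d := by exact_mod_cast h2.2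
        rw [show Real.pi * (x : ℝ) / d =
          Real.pi / 2 - (Real.pi / 2 - Real.pi * (x : ℝ) / d) by ring,
          Real.cos_pi_div_two_sub]
        refine Real.abs_sin_le_abs.trans ?_
        rw [show Real.pi / 2 - Real.pi * (x : ℝ) / d =
          Real.pi / d * ((d - 2 * x) / 2) by field_simp]
        rw [abs_mul, abs_of_nonneg hpos]
        refine mul_le_of_le_one_right hpos ?_
        rw [abs_le]
        constructor <;> linarith
      · rw [if_neg h1, if_neg h2]
        simpa using hpos

/-- start of the support -/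
def st (d : ℕ) (i : Fin 2) : ℤ := if i = 0 then 0 else -((d / 2 : ℕ) : ℤ)

lemma win_supp (d : ℕ) (i : Fin 2) (x : ℤ) (h : win d i x ≠ 0) :
    st d i ≤ x ∧ x ≤ st d i + d := by
  unfold win at h
  unfold st
  split_ifs at h with h1 h2 h3
  · rw [if_pos h1]; omega
  · exact absurd rfl h
  · rw [if_neg h1]; omega
  · exact absurd rfl h

lemma win_supp' (d : ℕ) (hd : 1 ≤ d) (i : Fin 2) (x : ℤ) (h : win d i x ≠ 0) :
    (i = 0 → 0 < x ∧ x < d) ∧ (i = 1 → -(d : ℤ) < 2 * x ∧ 2 * x < d) := by
  have hd0 : (0 : ℝ) < d := by exact_mod_cast hd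
  constructor
  · rintro rfl
    unfold win at h
    rw [if_pos rfl] at h
    split_ifs at h with h1
    · refine ⟨lt_of_le_of_ne h1.1 ?_, lt_of_le_of_ne h1.2 ?_⟩
      · rintro rfl
        apply h
        simp
      · intro h2
        apply h
        rw [h2]
        have e : Real.pi * (((d : ℤ) : ℝ)) / d = Real.pi := by
          push_cast
          field_simp
        rw [e, Real.sin_pi]
    · exact absurd rfl h
  · rintro rfl
    unfold win at h
    rw [if_neg (by decide)] at h
    split_ifs at h with h1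
    · refine ⟨lt_of_le_of_ne h1.1 ?_, lt_of_le_of_ne h1.2 ?_⟩
      · intro h2
        apply h
        have h3 : -(d : ℝ) = 2 * x := by exact_mod_cast h2
        have e : Real.pi * (x : ℝ) / d = -(Real.pi / 2) := by
          have : (x : ℝ) = -(d : ℝ) / 2 := by linarith
          rw [this]
          field_simp
        rw [e, Real.cos_neg, Real.cos_pi_div_two]
      · intro h2
        apply h
        have h3 : 2 * (x : ℝ) = d := by exact_mod_cast h2
        have e : Real.pi * (x : ℝ) / d = Real.pi / 2 := by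
          have : (x : ℝ) = (d : ℝ) / 2 := by linarith
          rw [this]
          field_simp
        rw [e, Real.cos_pi_div_two]
    · exact absurd rfl h

/-- shifts of the two blocks -/
def ks (k : ℤ) (i : Fin 2) : ℤ := if i = 0 then 0 else k

/-- the windowed cubic phases -/
noncomputable def phi (p d : ℕ) (k : ℤ) (i : Fin 2) (x : ℤ) : ℂ :=
  (win d i x : ℂ) * ee ((x + ks k i : ℤ) ^ 3 / p)

noncomputable def piece (p d : ℕ) (k : ℤ) (i j : Fin 2) (t b : ℤ) : ℂ :=
  ∑ x ∈ Ico (-(d : ℤ)) d, ee (b * x / d) * phi p d k i x * (starRingEnd ℂ) (phi p d k j (x + t))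

lemma prod_lip (d : ℕ) (hd : 1 ≤ d) (i j : Fin 2) (t x : ℤ) :
    |win d i (x + 1) * win d j (x + 1 + t) - win d i x * win d j (x + t)| ≤ 7 / d := by
  have hd0 : (0 : ℝ) < d := by exact_mod_cast hd
  have h1 := win_lip d hd i x
  have h2 := win_lip d hd j (x + t)
  rw [show x + t + 1 = x + 1 + t by ring] at h2
  have h3 := win_abs d i x
  have h4 := win_abs d j (x + 1 + t)
  have e : win d i (x + 1) * win d j (x + 1 + t) - win d i x * win d j (x + t) =
      (win d i (x + 1) - win d i x) * win d j (x + 1 + t) +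
      win d i x * (win d j (x + 1 + t) - win d j (x + t)) := by ring
  rw [e]
  refine (abs_add_le _ _).trans ?_
  rw [abs_mul, abs_mul]
  have h5 : |win d i (x + 1) - win d i x| * |win d j (x + 1 + t)| ≤ Real.pi / d * 1 := by
    gcongr
  have h6 : |win d i x| * |win d j (x + 1 + t) - win d j (x + t)| ≤ 1 * (Real.pi / d) := by
    gcongr
  have h7 : Real.pi / d * 1 + 1 * (Real.pi / d) ≤ 7 / d := by
    rw [mul_one, one_mul, ← add_div]
    gcongr
    linarith [Real.pi_lt_d2]
  linarith

lemma phase (p d : ℕ) (k : ℤ) (i j : Fin 2) (t b x : ℤ) :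
    ee (b * x / d) * ee ((x + ks k i : ℤ) ^ 3 / p) *
      (starRingEnd ℂ) (ee ((x + t + ks k j : ℤ) ^ 3 / p)) =
    ee ((-3 * (t + ks k j - ks k i) * ks k i ^ 2 - 3 * (t + ks k j - ks k i) ^ 2 * ks k i -
      (t + ks k j - ks k i) ^ 3 : ℤ) / p) *
    GG p (-3 * (t + ks k j - ks k i))
      (b / d + (-6 * (t + ks k j - ks k i) * ks k i - 3 * (t + ks k j - ks k i) ^ 2 : ℤ) / p)
      x := by
  unfold GG
  rw [← ee_neg, ← ee_add, ← ee_add, ← ee_add]
  congr 1
  push_cast
  ring

theorem piece_bound (p d : ℕ) (hp : p.Prime) (hp3 : 3 < p) (hd : 1 ≤ d) (hpd : 2 * d + 1 ≤ p)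
    (k : ℤ) (i j : Fin 2) (t b : ℤ)
    (h : (∀ x, win d i x * win d j (x + t) = 0) ∨ ¬ (p : ℤ) ∣ t + ks k j - ks k i) :
    ‖piece p d k i j t b‖ ≤ 14 * Real.sqrt p := by
  have e0 : ∀ x : ℤ, ee (b * x / d) * phi p d k i x * (starRingEnd ℂ) (phi p d k j (x + t)) =
      ee ((-3 * (t + ks k j - ks k i) * ks k i ^ 2 - 3 * (t + ks k j - ks k i) ^ 2 * ks k i -
      (t + ks k j - ks k i) ^ 3 : ℤ) / p) * (((win d i x * win d j (x + t) : ℝ) : ℂ) *
    GG p (-3 * (t + ks k j - ks k i))
      (b / d + (-6 * (t + ks k j - ks k i) * ks k i - 3 * (t + ks k j - ks k i) ^ 2 : ℤ) / p)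
      x) := by
    intro x
    have := phase p d k i j t b x
    unfold phi
    rw [map_mul, Complex.conj_ofReal]
    calc ee (b * x / d) * ((win d i x : ℂ) * ee ((x + ks k i : ℤ) ^ 3 / p)) *
        ((win d j (x + t) : ℂ) * (starRingEnd ℂ) (ee ((x + t + ks k j : ℤ) ^ 3 / p)))
        = ((win d i x : ℂ) * (win d j (x + t) : ℂ)) * (ee (b * x / d) *
          ee ((x + ks k i : ℤ) ^ 3 / p) *
          (starRingEnd ℂ) (ee ((x + t + ks k j : ℤ) ^ 3 / p))) := by ring
      _ = _ := by
          rw [this]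
          push_cast
          ring
  unfold piece
  simp_rw [e0]
  rw [← mul_sum, norm_mul, norm_ee, one_mul]
  rcases h with h | h
  · simp_rw [h]
    simp
  · -- restrict to the support
    have e1 : ∑ x ∈ Ico (-(d : ℤ)) d, ((win d i x * win d j (x + t) : ℝ) : ℂ) *
        GG p (-3 * (t + ks k j - ks k i))
      (b / d + (-6 * (t + ks k j - ks k i) * ks k i - 3 * (t + ks k j - ks k i) ^ 2 : ℤ) / p) x =
      ∑ x ∈ Icc (st d i) (st d i + d), ((win d i x * win d j (x + t) : ℝ) : ℂ) *
        GG p (-3 * (t + ks k j - ks k i))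
      (b / d + (-6 * (t + ks k j - ks k i) * ks k i - 3 * (t + ks k j - ks k i) ^ 2 : ℤ) / p) x := by
      have key0 : ∀ x, x ∉ Ico (-(d : ℤ)) d → win d i x = 0 := by
        intro x hx
        by_contra h0
        apply hx
        have := win_supp' d hd i x h0
        rw [mem_Ico]
        fin_cases i
        · have := this.1 rfl; omega
        · have := this.2 rfl; omega
      have key1 : ∀ x, x ∉ Icc (st d i) (st d i + d) → win d i x = 0 := by
        intro x hx
        by_contra h0
        exact hx (mem_Icc.mpr (win_supp d i x h0))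
      rw [← Finset.sum_subset (s₁ := Ico (-(d : ℤ)) d ∩ Icc (st d i) (st d i + d))
        (s₂ := Ico (-(d : ℤ)) d) inter_subset_left,
        ← Finset.sum_subset (s₁ := Ico (-(d : ℤ)) d ∩ Icc (st d i) (st d i + d))
        (s₂ := Icc (st d i) (st d i + d)) inter_subset_right]
      · intro x hx1 hx2
        have : win d i x = 0 := by
          apply key0
          intro h3
          exact hx2 (mem_inter.mpr ⟨h3, hx1⟩)
        rw [this]
        simp
      · intro x hx1 hx2
        have : win d i x = 0 := by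
          apply key1
          intro h3
          exact hx2 (mem_inter.mpr ⟨hx1, h3⟩)
        rw [this]
        simp
    rw [e1]
    apply key p _ _ d hd hpd
    · intro n hn0 hnp hdvd
      have hpZ : Prime (p : ℤ) := Nat.prime_iff_prime_int.mp hp
      have e2 : (p : ℤ) ∣ (-6 : ℤ) * ((t + ks k j - ks k i) * n) := by
        have e3 : 2 * (-3 * (t + ks k j - ks k i)) * n = (-6 : ℤ) * ((t + ks k j - ks k i) * n) := by
          ring
        rwa [e3] at hdvd
      rcases hpZ.dvd_or_dvd e2 with h6 | h6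
      · have h7 : (p : ℤ) ∣ 2 * 3 := by
          have := (dvd_neg.mpr h6)
          norm_num at this ⊢
          exact this
        rcases hpZ.dvd_or_dvd h7 with h8 | h8
        · have := Int.le_of_dvd (by norm_num) h8; omega
        · have := Int.le_of_dvd (by norm_num) h8; omega
      · rcases hpZ.dvd_or_dvd h6 with h8 | h8
        · exact h h8
        · have := Int.eq_zero_of_abs_lt_dvd h8 hnp
          exact hn0 this
    · intro x hx
      exact win_supp d i x (left_ne_zero_of_mul hx)
    · intro x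
      rw [abs_mul]
      exact mul_le_one₀ (win_abs d i x) (abs_nonneg _) (win_abs d j _)
    · intro x
      exact prod_lip d hd i j t x

end Pool.Agent.Q162.WH
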